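import Pool.Agent.Q107.RF.Vote

/-!
# Deciding rationality and unirationality with few failures

* `Qb` is the field of algebraic numbers, coded by natural numbers in an arbitrary way: `ν c` is the
  number with the code `c`, and `u` is a code of `1`.
* `Sys` is the type of the systems of equations `(n, F)`: `n` variables, and a list `F` of
  polynomials; a polynomial (`Poly`) is the list of its terms `(c, w)`, with the code `c` of the
  coefficient and the list `w` of the variables in the monomial. `Valid S`: all variables are `< n`.
* `Coord ν S` is the coordinate ring: polynomials in `x₀, x₁, …` over `Qb` modulo the polynomials of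
  the system and the variables `xᵢ`, `i ≥ n`. `Variety ν S`: `S` is valid and this is a domain.
* `Right ν P φ S`: the program `φ` stops at `S` and says whether `Coord ν S` has the property `P`.
* `Fails ν u d P φ S m`: the set of the systems `S'` with `m` more variables and `m` more equations
  than `S`, of bounded size, with `Coord ν S'` isomorphic to `Coord ν S`, where `φ` is not `Right`.
* `expo d n m` is the sum of the numbers of monomials of degree `d` in `n + i` variables, `i < m`.
-/

set_option autoImplicit false

namespace Pool.Agent.Results.MP_1dc56d_ag.FewFailuresSuffice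

open Pool.Agent.Q107.RF

/-- Rationality and unirationality are invariant under isomorphisms of coordinate rings, and every
such property of varieties over the algebraic numbers is decidable if it is decidable with few
failures near each variety; in particular if for some `d` there are at most `2 ^ (N ^ d)` failures
among the systems in `N` variables. -/
theorem result (ν : ℕ → Qb) (u : ℕ) (hu : ν u = 1) :
    IsoInv (fun A [CommRing A] [Algebra Qb A] => Rational A) ∧
    IsoInv (fun A [CommRing A] [Algebra Qb A] => Unirational A) ∧
    ∀ P : (A : Type) → [CommRing A] → [Algebra Qb A] → Prop, IsoInv P → ∀ d : ℕ, 1 ≤ d →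
      -- failures up to one half of the weight
      ((∃ φ : Sys →. Bool, Partrec φ ∧ ∀ S, Variety ν S → Right ν P φ S) ↔
        ∃ (φ : Sys →. Bool) (h : Sys → ℕ), Partrec φ ∧ Computable h ∧
          ∀ S, Variety ν S → 2 * (Fails ν u d P φ S (h S)).ncard < 2 ^ expo d S.1 (h S)) ∧
      -- at most `2 ^ (N ^ d)` failures
      ((∃ φ : Sys →. Bool, Partrec φ ∧ ∀ S, Variety ν S → Right ν P φ S) ↔
        ∃ (φ : Sys →. Bool) (h : Sys → ℕ), Partrec φ ∧ Computable h ∧
          ∀ S, Variety ν S → 2 ^ (d + 2) * d.factorial ≤ h S ∧
            (Fails ν u d P φ S (h S)).ncard ≤ 2 ^ ((S.1 + h S) ^ d)) :=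
  ⟨rational_inv, unirational_inv, fun _ hP _ hd => tfae hu hd hP⟩

end Pool.Agent.Results.MP_1dc56d_ag.FewFailuresSuffice
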