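import Mathlib
import Pool.Agent.Q33.SU.Main

/-!
# Unirationality by polynomial maps with few terms: the exponents can be bounded

A projective variety is unirational if it has a parametrisation with dense image by polynomials
`P_0, …, P_n` in some variables. Nothing is known about the degrees of such polynomials, and this is
the obstacle to deciding unirationality. Here we bound them for parametrisations with few terms.

Let `P_j = ∑ i < r, c i j t ^ (e i j)` be polynomials with at most `r` terms each, in any number of
variables and of any degrees. Then for every `d ≥ 1` there are exponents `e'`, in `r (n + 1)`
variables and at most `2 (2 d) ^ (r (n + 1))`, which depend only on `e` and `d`, such that for ALL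
coefficients `c`, in all domains `L` over all rings `K`, and for ALL varieties `X` that are
irreducible components of a closed set given by forms over `K` of degree at most `d`:

if the parametrisation with exponents `e` and coefficients `c` has dense image in `X`, then so has
the parametrisation with exponents `e'` and the same coefficients `c`.

So whether `X` has a dense parametrisation with at most `r` terms in each coordinate can be read off
from finitely many lists of exponents; the number of variables and the degree of the
parametrisation are bounded in terms of `n`, `d` and `r`.

In general, without the hypothesis that the image is dense: every form of degree at most `d` that is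
zero at the first parametrisation is zero at the second one, and every form that is zero at the
second one is zero at the first one; the closure of the image of the second one contains that of
the first one and is contained in the same closed sets given by forms of degree at most `d`.

The proof replaces the torus of the `t ^ (e i j)` by the torus given by all relations of length at
most `2 d` between the exponents, for which we find a basis of small cofactor vectors.
-/

set_option autoImplicit false

namespace Pool.Agent.Results.MP_1dc56d_ag.FewTermParametrisations

open MvPolynomial Q33.SU

universe u v w

/-- **Varieties parametrised by polynomials with few terms.** -/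
theorem result (n r d : ℕ) (hd : 1 ≤ d) {τ : Type w} (e : Fin r → Fin (n + 1) → τ →₀ ℕ) :
    ∃ e' : Fin r → Fin (n + 1) → (Fin r × Fin (n + 1)) →₀ ℕ,
      (∀ i j v, e' i j v ≤ 2 * (2 * d) ^ (r * (n + 1))) ∧
      ∀ (K : Type u) (L : Type v) [CommRing K] [CommRing L] [Algebra K L]
        (c : Fin r → Fin (n + 1) → L),
        (∀ (D : ℕ) (F : MvPolynomial (Fin (n + 1)) K), F.IsHomogeneous D →
          (D ≤ d → aeval (sparse c e) F = 0 → aeval (sparse c e') F = 0) ∧
          (aeval (sparse c e') F = 0 → aeval (sparse c e) F = 0)) ∧
        (IsDomain L → ∀ GG : Set (MvPolynomial (Fin (n + 1)) K),
          (∀ G ∈ GG, ∃ k, k ≤ d ∧ G.IsHomogeneous k) →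
          ∀ I ∈ (Ideal.span GG).minimalPrimes, DenseIn I (sparse c e) →
            DenseIn I (sparse c e')) := by
  obtain ⟨e', hb, hmain⟩ := exists_bounded.{u, v} d hd e
  refine ⟨e', fun i j v => ?_, fun K L _ _ _ c => ⟨fun D F hF => hmain K L c D F hF, ?_⟩⟩
  · have h := hb i j v
    rwa [Fintype.card_fin, Fintype.card_fin] at h
  · intro _ GG hG I hI h
    exact dense_of_transfer (fun D F hF => hmain K L c D F hF) GG hG I hI h

end Pool.Agent.Results.MP_1dc56d_ag.FewTermParametrisations
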